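import Pool.Agent.Work.MP_156639_an.Basic
import Pool.Agent.Work.MP_156639_an.Interface

/-!
# MP_156639_an : block EXH
-/

set_option autoImplicit false

open scoped BigOperators
open Filter Topology

namespace Pool.Agent.MP156639

namespace H72X

/-- finitely supported sequences have finite variation -/
lemma exists_TVle (x : ℕ → ℝ) (M : ℕ) (hx : ∀ m ≥ M, x m = 0) : ∃ V, TVle V x := by
  induction M generalizing x with
  | zero =>
    refine ⟨0, fun ms _ K => ?_⟩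
    apply le_of_eq
    apply Finset.sum_eq_zero
    intro i _
    rw [hx _ (Nat.zero_le _), hx _ (Nat.zero_le _)]
    simp
  | succ M ih =>
    obtain ⟨V, hV⟩ := ih (fun m => if m = M then 0 else x m) (by
      intro m hm
      by_cases h : m = M
      · rw [if_pos h]
      · rw [if_neg h]
        exact hx m (by omega))
    have h2 := TVle_single M |x M| (fun m => if m = M then x M else 0) (by
      intro m hm
      simp [hm]) (by simp)
    refine ⟨V + 2 * |x M|, ?_⟩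
    have h3 := hV.add h2
    have e : (fun m => (if m = M then 0 else x m) + (if m = M then x M else 0)) = x := by
      funext m
      by_cases h : m = M
      · rw [if_pos h, if_pos h, h, zero_add]
      · rw [if_neg h, if_neg h, add_zero]
    rwa [e] at h3

lemma soft_zero {J : ℕ} {x : ℝ} (hx : |x| ≤ 1 / ((J : ℝ) + 1)) : soft J x = 0 := by
  unfold soft
  rw [abs_le] at hx
  rw [min_eq_right hx.2, max_eq_right hx.1, sub_self]

lemma exists_soft_bound {x : ℕ → ℝ} (hx : Tendsto x atTop (𝓝 0)) (J : ℕ) :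
    ∃ k, ∀ n ≥ k, TVle (th n : ℝ) (fun m => soft J (x m)) := by
  have h1 : ∀ᶠ m in atTop, |x m| ≤ 1 / ((J : ℝ) + 1) := by
    have h2 : (0 : ℝ) < 1 / ((J : ℝ) + 1) := by positivity
    have h3 := (Metric.tendsto_atTop.1 hx) _ h2
    obtain ⟨M, hM⟩ := h3
    filter_upwards [eventually_ge_atTop M] with m hm
    have := hM m hm
    rw [Real.dist_eq, sub_zero] at this
    exact this.le
  obtain ⟨M, hM⟩ := eventually_atTop.1 h1
  obtain ⟨V, hV⟩ := exists_TVle (fun m => soft J (x m)) M (fun m hm => soft_zero (hM m hm))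
  obtain ⟨k, hk⟩ := eventually_atTop.1 (th_tendsto.eventually_ge_atTop V)
  exact ⟨k, fun n hn => hV.mono (hk n hn)⟩

section

variable {Ω : Type} [LinearOrder Ω] (D : LD Ω)

/-- one step of the exhaustion -/
lemma step (z : Pt Ω → ℝ) (βs : Ω) (hz : ∀ v, Tendsto (fun m => z (v, m)) atTop (𝓝 0)) (J : ℕ)
    (P : Finset (ℕ × Ω × ℕ)) (hP : ∀ s ∈ P, s.2.1 < βs) :
    ∃ P' : Finset (ℕ × Ω × ℕ), P ⊆ P' ∧ (∀ s ∈ P', s.2.1 < βs) ∧
      (∀ (N : ℕ) (β : Ω), NonMin β → ∀ a c, c ≤ a → (N, D.lad β a) ∈ P' →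
        (N, D.lad β c) ∈ P') ∧
      (∀ (N : ℕ) (β β' : Ω), NonMin β → NonMin β' → β ≠ β' → (N, β, 0) ∈ P' →
        (N, β', 0) ∈ P' → ∀ a, D.lad β a = D.lad β' a → (N, D.lad β a) ∈ P') ∧
      (∀ (N : ℕ) (β : Ω), NonMin β → (N, β, 0) ∈ P' → ∀ a, (N, D.lad β a) ∉ P' →
        ∀ n ≥ a, TVle (th n : ℝ) (fun m => soft J (z ((N, β, 0), m)))) := by
  classical
  -- common bound for the thresholds
  have h1 : ∀ s : ℕ × Ω × ℕ, ∃ k, ∀ n ≥ k,
      TVle (th n : ℝ) (fun m => soft J (z ((s.1, s.2.1, 0), m))) := fun s =>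
    exists_soft_bound (hz _) J
  choose k₁ hk₁ using h1
  have h2 : ∀ s s' : ℕ × Ω × ℕ, ∃ k, NonMin s.2.1 → NonMin s'.2.1 → s.2.1 ≠ s'.2.1 →
      ∀ a ≥ k, D.lad s.2.1 a ≠ D.lad s'.2.1 a := by
    intro s s'
    by_cases h : NonMin s.2.1 ∧ NonMin s'.2.1 ∧ s.2.1 ≠ s'.2.1
    · obtain ⟨a₀, ha₀⟩ := D.lad_ad _ _ h.1 h.2.1 h.2.2
      exact ⟨a₀, fun _ _ _ => ha₀⟩
    · exact ⟨0, fun e1 e2 e3 => absurd ⟨e1, e2, e3⟩ h⟩
  choose k₂ hk₂ using h2
  set k := max (P.sup k₁) ((P ×ˢ P).sup (fun q => k₂ q.1 q.2)) with hk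
  have hkk₁ : ∀ s ∈ P, k₁ s ≤ k := fun s hs => (Finset.le_sup hs).trans (le_max_left _ _)
  have hkk₂ : ∀ s ∈ P, ∀ s' ∈ P, k₂ s s' ≤ k := fun s hs s' hs' =>
    (Finset.le_sup (f := fun q : (ℕ × Ω × ℕ) × (ℕ × Ω × ℕ) => k₂ q.1 q.2)
      (Finset.mem_product.2 ⟨hs, hs'⟩ : (s, s') ∈ P ×ˢ P)).trans (le_max_right _ _)
  -- predecessors
  have h3 : ∀ s : ℕ × Ω × ℕ, ∃ Q : Finset (ℕ × Ω × ℕ), ∀ t, t ∈ Q ↔
      ∃ β a c, NonMin β ∧ s.2 = D.lad β a ∧ c ≤ a ∧ t = (s.1, D.lad β c) := by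
    intro s
    by_cases h : ∃ β a, NonMin β ∧ s.2 = D.lad β a
    · obtain ⟨β, a, hβ, hs⟩ := h
      refine ⟨(Finset.range (a + 1)).image (fun c => (s.1, D.lad β c)), fun t => ?_⟩
      rw [Finset.mem_image]
      constructor
      · rintro ⟨c, hc, rfl⟩
        rw [Finset.mem_range] at hc
        exact ⟨β, a, c, hβ, hs, by omega, rfl⟩
      · rintro ⟨β', a', c, hβ', hs', hc, rfl⟩
        obtain ⟨e1, e2⟩ := D.lad_tree β β' hβ hβ' a a' (hs.symm.trans hs')
        subst e1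
        exact ⟨c, Finset.mem_range.2 (by omega), by rw [e2 c hc]⟩
    · refine ⟨∅, fun t => ?_⟩
      constructor
      · intro ht; exact absurd ht (Finset.notMem_empty t)
      · rintro ⟨β, a, c, hβ, hs, -, -⟩
        exact absurd ⟨β, a, hβ, hs⟩ h
  choose Q hQ using h3
  set A := P.biUnion Q with hA
  set B := (P.filter (fun s => NonMin s.2.1 ∧ s.2.2 = 0)).biUnion
    (fun s => (Finset.range k).image (fun a => (s.1, D.lad s.2.1 a))) with hB
  have hAmem : ∀ t, t ∈ A ↔ ∃ s ∈ P, ∃ β a c, NonMin β ∧ s.2 = D.lad β a ∧ c ≤ a ∧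
      t = (s.1, D.lad β c) := by
    intro t
    simp only [hA, Finset.mem_biUnion, hQ]
  have hBmem : ∀ t, t ∈ B ↔ ∃ N β a, (N, β, 0) ∈ P ∧ NonMin β ∧ a < k ∧ t = (N, D.lad β a) := by
    intro t
    simp only [hB, Finset.mem_biUnion, Finset.mem_filter, Finset.mem_image, Finset.mem_range]
    constructor
    · rintro ⟨⟨N, β, j⟩, ⟨e1, e2, e3⟩, a, ha, rfl⟩
      simp only at e2 e3
      subst e3
      exact ⟨N, β, a, e1, e2, ha, rfl⟩
    · rintro ⟨N, β, a, e1, e2, ha, rfl⟩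
      exact ⟨(N, β, 0), ⟨e1, e2, rfl⟩, a, ha, rfl⟩
  have hlimP : ∀ N β, (N, β, 0) ∈ P ∪ A ∪ B → (N, β, 0) ∈ P := by
    intro N β h
    rw [Finset.mem_union, Finset.mem_union] at h
    rcases h with (h | h) | h
    · exact h
    · obtain ⟨s, -, β', a, c, hβ', -, -, e⟩ := (hAmem _).1 h
      have e2 := D.lad_pos β' hβ' c
      rw [← (Prod.mk.inj e).2] at e2
      simp at e2
    · obtain ⟨N', β', a, -, hβ', -, e⟩ := (hBmem _).1 h
      have e2 := D.lad_pos β' hβ' a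
      rw [← (Prod.mk.inj e).2] at e2
      simp at e2
  refine ⟨P ∪ A ∪ B, ?_, ?_, ?_, ?_, ?_⟩
  · exact Finset.subset_union_left.trans Finset.subset_union_left
  · intro s hs
    rw [Finset.mem_union, Finset.mem_union] at hs
    rcases hs with (h | h) | h
    · exact hP s h
    · obtain ⟨s', hs', β', a, c, hβ', e1, hca, rfl⟩ := (hAmem _).1 h
      have e2 := hP s' hs'
      rw [e1] at e2
      exact lt_of_le_of_lt (D.lad_mono β' hβ' hca) e2
    · obtain ⟨N', β', a, e1, hβ', -, rfl⟩ := (hBmem _).1 h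
      exact (D.lad_lt β' hβ' a).trans (hP _ e1)
  · intro N β hβ a c hca h
    rw [Finset.mem_union, Finset.mem_union] at h ⊢
    rcases h with (h | h) | h
    · left; right
      exact (hAmem _).2 ⟨_, h, β, a, c, hβ, rfl, hca, rfl⟩
    · obtain ⟨s', hs', β', a', c', hβ', e1, hca', e⟩ := (hAmem _).1 h
      obtain ⟨e2, e3⟩ := Prod.mk.inj e
      obtain ⟨e4, e5⟩ := D.lad_tree β β' hβ hβ' a c' e3
      subst e4
      left; right
      refine (hAmem _).2 ⟨s', hs', β', a', c, hβ', e1, hca.trans hca', ?_⟩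
      rw [e2, e5 c hca]
    · obtain ⟨N', β', a', e1, hβ', ha', e⟩ := (hBmem _).1 h
      obtain ⟨e2, e3⟩ := Prod.mk.inj e
      obtain ⟨e4, e5⟩ := D.lad_tree β β' hβ hβ' a a' e3
      subst e4
      right
      exact (hBmem _).2 ⟨N', β', c, e1, hβ', by omega, by rw [e2, e5 c hca]⟩
  · intro N β β' hβ hβ' hne h h' a ha
    have e1 := hlimP N β h
    have e2 := hlimP N β' h'
    rw [Finset.mem_union]
    right
    refine (hBmem _).2 ⟨N, β, a, e1, hβ, ?_, rfl⟩
    by_contra hcon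
    exact hk₂ _ _ hβ hβ' hne a ((hkk₂ _ e1 _ e2).trans (not_lt.1 hcon)) ha
  · intro N β hβ h a ha n hn
    have e1 := hlimP N β h
    have hak : k ≤ a := by
      by_contra hcon
      apply ha
      rw [Finset.mem_union]
      right
      exact (hBmem _).2 ⟨N, β, a, e1, hβ, not_le.1 hcon, rfl⟩
    exact hk₁ _ n (((hkk₁ _ e1).trans hak).trans hn)

end

end H72X

open H72X

theorem stmt_Exh : Stmt_Exh := by
  intro Ω _ D z βs hc hz
  classical
  -- an enumeration of the stations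
  set T : Set (ℕ × Ω × ℕ) := {s | s.2.1 < βs} with hT
  have hTc : T.Countable := by
    have h1 : T ⊆ (Set.univ : Set ℕ) ×ˢ (Set.Iio βs ×ˢ (Set.univ : Set ℕ)) := by
      rintro ⟨N, β, j⟩ h
      exact ⟨trivial, h, trivial⟩
    exact (Set.countable_univ.prod (hc.prod Set.countable_univ)).mono h1
  obtain ⟨f, hf⟩ := hTc.exists_injective_nat
  have hEfin : ∀ J : ℕ, {s : ℕ × Ω × ℕ | ∃ h : s ∈ T, f ⟨s, h⟩ ≤ J}.Finite := by
    intro J
    have h1 : {t : T | f t ≤ J}.Finite := (Set.finite_le_nat J).preimage hf.injOn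
    apply (h1.image Subtype.val).subset
    rintro s ⟨hs, hJ⟩
    exact ⟨⟨s, hs⟩, hJ, rfl⟩
  set E : ℕ → Finset (ℕ × Ω × ℕ) := fun J => (hEfin J).toFinset with hE
  have hEmem : ∀ J s, s ∈ E J ↔ ∃ h : s ∈ T, f ⟨s, h⟩ ≤ J := by
    intro J s
    simp [hE]
  choose! stp hstp using fun (J : ℕ) (P : Finset (ℕ × Ω × ℕ)) (hP : ∀ s ∈ P, s.2.1 < βs) =>
    step D z βs hz J P hP
  let S : ℕ → Finset (ℕ × Ω × ℕ) := fun J =>
    Nat.rec (stp 0 (E 0)) (fun J P => stp (J + 1) (P ∪ E (J + 1))) J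
  have hElt : ∀ J, ∀ s ∈ E J, s.2.1 < βs := by
    intro J s hs
    obtain ⟨h, -⟩ := (hEmem J s).1 hs
    exact h
  have hSsucc : ∀ J, S (J + 1) = stp (J + 1) (S J ∪ E (J + 1)) := fun J => rfl
  have hlt : ∀ J, ∀ s ∈ S J, s.2.1 < βs := by
    intro J
    induction J with
    | zero => exact (hstp 0 (E 0) (hElt 0)).2.1
    | succ J ih =>
      rw [hSsucc]
      refine (hstp (J + 1) (S J ∪ E (J + 1)) ?_).2.1
      intro s hs
      rcases Finset.mem_union.1 hs with h | h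
      · exact ih s h
      · exact hElt _ s h
  have hP : ∀ J, ∃ P, (∀ s ∈ P, s.2.1 < βs) ∧ E J ⊆ P ∧ S J = stp J P := by
    intro J
    cases J with
    | zero => exact ⟨E 0, hElt 0, Finset.Subset.refl _, rfl⟩
    | succ J =>
      refine ⟨S J ∪ E (J + 1), ?_, Finset.subset_union_right, rfl⟩
      intro s hs
      rcases Finset.mem_union.1 hs with h | h
      · exact hlt J s h
      · exact hElt _ s h
  refine ⟨fun J => {s | s ∈ S J}, ?_⟩
  constructor
  · intro J; exact (Finset.finite_toSet (S J)).subset (fun s hs => hs)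
  · apply monotone_nat_of_le_succ
    intro J
    have h1 : S J ∪ E (J + 1) ⊆ S (J + 1) := by
      rw [hSsucc]
      refine (hstp (J + 1) (S J ∪ E (J + 1)) ?_).1
      intro s hs
      rcases Finset.mem_union.1 hs with h | h
      · exact hlt J s h
      · exact hElt _ s h
    intro s hs
    exact h1 (Finset.mem_union_left _ hs)
  · intro N β j hβ
    have hmem : ((N, β, j) : ℕ × Ω × ℕ) ∈ T := hβ
    refine ⟨f ⟨(N, β, j), hmem⟩, ?_⟩
    obtain ⟨P, h1, h2, h3⟩ := hP (f ⟨(N, β, j), hmem⟩)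
    show _ ∈ S _
    rw [h3]
    exact (hstp _ P h1).1 (h2 ((hEmem _ _).2 ⟨hmem, le_rfl⟩))
  · intro J N β j h
    exact hlt J _ h
  · intro J N β hβ a c hca h
    obtain ⟨P, h1, h2, h3⟩ := hP J
    simp only [Set.mem_ofPred_eq] at h ⊢
    rw [h3] at h ⊢
    exact (hstp J P h1).2.2.1 N β hβ a c hca h
  · intro J N β β' hβ hβ' hne h h' a ha
    obtain ⟨P, h1, h2, h3⟩ := hP J
    simp only [Set.mem_ofPred_eq] at h h' ⊢
    rw [h3] at h h' ⊢
    exact (hstp J P h1).2.2.2.1 N β β' hβ hβ' hne h h' a ha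
  · intro J N β hβ h a ha n hn
    obtain ⟨P, h1, h2, h3⟩ := hP J
    simp only [Set.mem_ofPred_eq] at h ha
    rw [h3] at h ha
    exact (hstp J P h1).2.2.2.2 N β hβ h a ha n hn

end Pool.Agent.MP156639
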