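import Pool.Agent.Work.MP_156639_an.Interface

/-!
# MP_156639_an : blocks O1, O2, O3
-/

set_option autoImplicit false

open scoped BigOperators
open Filter Topology

namespace Pool.Agent.MP156639

namespace H72

/-! ### variation -/

lemma sum_antitone (x : ℕ → ℝ) (hx : Antitone x) (ms : ℕ → ℕ) (hms : Monotone ms) (K : ℕ) :
    ∑ i ∈ Finset.range K, |x (ms (i + 1)) - x (ms i)| = x (ms 0) - x (ms K) := by
  induction K with
  | zero => simp
  | succ K ih =>
    rw [Finset.sum_range_succ, ih]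
    have h := hx (hms (Nat.le_succ K))
    have h' : x (ms (K + 1)) - x (ms K) ≤ 0 := sub_nonpos.2 h
    rw [abs_of_nonpos h']
    ring

lemma ind_antitone (k : ℕ) : Antitone (ind k) := by
  intro a b hab
  unfold ind
  split_ifs with h1 h2
  · exact le_rfl
  · omega
  · exact zero_le_one
  · exact le_rfl

lemma ind_mem (k m : ℕ) : 0 ≤ ind k m ∧ ind k m ≤ 1 := by
  unfold ind
  split_ifs <;> norm_num

lemma TVle_ind (k : ℕ) : TVle 1 (ind k) := by
  intro ms hms K
  rw [sum_antitone _ (ind_antitone k) ms hms]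
  have h1 := ind_mem k (ms 0)
  have h2 := ind_mem k (ms K)
  linarith

lemma TVle_single (m₀ : ℕ) : TVle 2 (fun m => if m = m₀ then (1 : ℝ) else 0) := by
  intro ms hms K
  have h0 : ∀ m, (if m = m₀ then (1 : ℝ) else 0) = ind (m₀ + 1) m - ind m₀ m := by
    intro m
    unfold ind
    split_ifs <;> first | omega | norm_num
  simp only [h0]
  calc ∑ i ∈ Finset.range K, |ind (m₀ + 1) (ms (i + 1)) - ind m₀ (ms (i + 1)) -
        (ind (m₀ + 1) (ms i) - ind m₀ (ms i))|
      ≤ ∑ i ∈ Finset.range K, (|ind (m₀ + 1) (ms (i + 1)) - ind (m₀ + 1) (ms i)| +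
          |ind m₀ (ms (i + 1)) - ind m₀ (ms i)|) := by
        apply Finset.sum_le_sum
        intro i _
        have : ind (m₀ + 1) (ms (i + 1)) - ind m₀ (ms (i + 1)) -
          (ind (m₀ + 1) (ms i) - ind m₀ (ms i)) =
          (ind (m₀ + 1) (ms (i + 1)) - ind (m₀ + 1) (ms i)) -
            (ind m₀ (ms (i + 1)) - ind m₀ (ms i)) := by ring
        rw [this]
        exact abs_sub _ _
    _ ≤ 1 + 1 := by
        rw [Finset.sum_add_distrib]
        exact add_le_add (TVle_ind _ ms hms K) (TVle_ind _ ms hms K)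
    _ = 2 := by norm_num

/-- interleaving -/
lemma TVle.interlace {V : ℝ} {x : ℕ → ℝ} (h : TVle V x) {a b : ℕ → ℕ}
    (hab : ∀ i, a i ≤ b i ∧ b i ≤ a (i + 1)) (K : ℕ) :
    ∑ i ∈ Finset.range K, |x (a i) - x (b i)| ≤ V := by
  set c : ℕ → ℕ := fun j => if j % 2 = 0 then a (j / 2) else b (j / 2) with hc
  have hc0 : ∀ i, c (2 * i) = a i := by
    intro i
    simp [hc]
  have hc1 : ∀ i, c (2 * i + 1) = b i := by
    intro i
    have h1 : (2 * i + 1) % 2 ≠ 0 := by omega
    have h2 : (2 * i + 1) / 2 = i := by omega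
    simp only [hc]
    rw [if_neg h1, h2]
  have hmono : Monotone c := by
    apply monotone_nat_of_le_succ
    intro j
    rcases Nat.even_or_odd' j with ⟨i, rfl | rfl⟩
    · rw [hc0, hc1]; exact (hab i).1
    · rw [hc1]
      have : 2 * i + 1 + 1 = 2 * (i + 1) := by ring
      rw [this, hc0]
      exact (hab i).2
  have hsum : ∀ K, ∑ i ∈ Finset.range K, |x (a i) - x (b i)| ≤
      ∑ j ∈ Finset.range (2 * K), |x (c (j + 1)) - x (c j)| := by
    intro K
    induction K with
    | zero => simp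
    | succ K ih =>
      rw [Finset.sum_range_succ]
      have : 2 * (K + 1) = 2 * K + 1 + 1 := by ring
      rw [this, Finset.sum_range_succ, Finset.sum_range_succ, hc1, hc0]
      have h1 := abs_nonneg (x (c (2 * K + 1 + 1)) - x (b K))
      rw [abs_sub_comm (x (a K))]
      linarith
  exact (hsum K).trans (h c hmono (2 * K))

lemma near_st (N j : ℕ) : near N (2 * (N + 1) * j) = j := by
  unfold near
  rw [Nat.mul_add_div (by omega)]
  have : (N + 1) / (2 * (N + 1)) = 0 := Nat.div_eq_of_lt (by omega)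
  rw [this, add_zero]

lemma ns_st {Ω : Type} (N : ℕ) (s : Ω × ℕ) : ns (st N s) = s := by
  obtain ⟨β, j⟩ := s
  simp only [ns, st, near_st]

lemma tent_st (N j : ℕ) : tent N (2 * (N + 1) * j) = 1 := by
  unfold tent
  rw [near_st]
  push_cast
  simp

lemma near_zero (N : ℕ) : near N 0 = 0 := by
  have := near_st N 0
  simpa using this

lemma tent_zero (N : ℕ) : tent N 0 = 1 := by
  have := tent_st N 0
  simpa using this

lemma le_th (n : ℕ) : n ≤ th n := by
  unfold th
  cases n with
  | zero => exact Nat.zero_le _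
  | succ n =>
    rw [Finset.prod_range_succ]
    have h1 : 1 ≤ ∏ i ∈ Finset.range n, (i + 1).factorial :=
      Nat.one_le_iff_ne_zero.2 (Finset.prod_ne_zero_iff.2 fun i _ => Nat.factorial_ne_zero _)
    have h2 : n + 1 ≤ (n + 1).factorial := Nat.self_le_factorial _
    calc n + 1 ≤ (n + 1).factorial := h2
      _ = 1 * (n + 1).factorial := (one_mul _).symm
      _ ≤ _ := Nat.mul_le_mul_right _ h1

section

variable {Ω : Type} [LinearOrder Ω] (D : LD Ω)

lemma lad_ne (β β' : Ω) (hβ : NonMin β) (a : ℕ) : D.lad β a ≠ (β', 0) := by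
  intro h
  have := D.lad_pos β hβ a
  rw [h] at this
  simp at this

lemma le_lad_snd (β : Ω) (hβ : NonMin β) (a : ℕ) : a ≤ (D.lad β a).2 :=
  (D.lad_strict β hβ).le_apply

lemma G_st (N : ℕ) (β : Ω) (N' : ℕ) (s : Ω × ℕ) [Decidable (N' = N ∧ D.InLad β s)] :
    D.G N β (st N' s) = if N' = N ∧ D.InLad β s then 1 else 0 := by
  classical
  unfold LD.G
  rw [ns_st]
  have h1 : (st N' s).1 = N' := rfl
  have h2 : tent (st N' s).1 (st N' s).2.2 = 1 := tent_st N' s.2
  rw [h1] at *
  rw [h2]
  congr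

lemma G_lim (N : ℕ) (β : Ω) (N' : ℕ) (β' : Ω) [Decidable (N' = N ∧ D.InLad β (β', 0))] :
    D.G N β (N', β', 0) = if N' = N ∧ D.InLad β (β', 0) then 1 else 0 := by
  have h : ((N', β', 0) : Vx Ω) = st N' (β', 0) := rfl
  rw [h, G_st]

lemma inLad_lim_iff (β β' : Ω) (hβ : NonMin β) : D.InLad β (β', 0) ↔ β' = β := by
  constructor
  · rintro (h | ⟨a, h⟩)
    · simpa using h
    · exact absurd h.symm (lad_ne D β β' hβ a)
  · rintro rfl; exact Or.inl rfl

/-- eventually constant along the ladders -/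
lemma GS_ladder {f : Pt Ω → ℝ} (hf : f ∈ D.GS) (N : ℕ) (β : Ω) (hβ : NonMin β) :
    ∃ a₀, ∀ a ≥ a₀, ∀ m, f (st N (D.lad β a), m) = f ((N, β, 0), m) := by
  classical
  unfold LD.GS at hf
  induction hf using Submodule.span_induction with
  | mem f hf =>
    rcases hf with ⟨v, m₀, hv, rfl⟩ | ⟨N', β', m₀, hβ', rfl⟩
    · refine ⟨v.2.2 + 1, fun a ha m => ?_⟩
      have h1 : ¬ ((st N (D.lad β a), m) = (v, m₀)) := by
        intro h
        have h2 : (st N (D.lad β a)).2.2 = v.2.2 := by
          rw [(Prod.mk.inj h).1]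
        have h3 : (st N (D.lad β a)).2.2 = 2 * (N + 1) * (D.lad β a).2 := rfl
        have h4 := le_lad_snd D β hβ a
        have h5 : (D.lad β a).2 ≤ 2 * (N + 1) * (D.lad β a).2 :=
          Nat.le_mul_of_pos_left _ (by omega)
        omega
      have h2 : ¬ ((((N, β, 0) : Vx Ω), m) = (v, m₀)) := by
        intro h
        apply hv
        rw [← (Prod.mk.inj h).1]
        exact ⟨rfl, hβ⟩
      simp only []
      rw [if_neg h1, if_neg h2]
    · by_cases hbb : β = β'
      · subst hbb
        refine ⟨0, fun a _ m => ?_⟩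
        have h1 : D.InLad β (D.lad β a) := Or.inr ⟨a, rfl⟩
        have h2 : D.InLad β (β, 0) := Or.inl rfl
        simp only [G_st, G_lim, h1, h2, and_true]
      · obtain ⟨a₀, ha₀⟩ := D.lad_ad β β' hβ hβ' hbb
        refine ⟨a₀, fun a ha m => ?_⟩
        have h1 : ¬ D.InLad β' (D.lad β a) := by
          rintro (h | ⟨a', h⟩)
          · exact lad_ne D β β' hβ a h
          · have h3 := (D.lad_tree β β' hβ hβ' a a' h).1
            subst h3
            exact ha₀ a ha h
        have h2 : ¬ D.InLad β' (β, 0) := by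
          rw [inLad_lim_iff D β' β hβ']
          exact hbb
        simp only [G_st, G_lim, h1, h2, and_false]
  | zero => exact ⟨0, fun _ _ _ => rfl⟩
  | add f g _ _ hf hg =>
    obtain ⟨a, ha⟩ := hf
    obtain ⟨b, hb⟩ := hg
    refine ⟨max a b, fun c hc m => ?_⟩
    rw [Pi.add_apply, Pi.add_apply, ha c (le_trans (le_max_left _ _) hc) m,
      hb c (le_trans (le_max_right _ _) hc) m]
  | smul r f _ hf =>
    obtain ⟨a, ha⟩ := hf
    refine ⟨a, fun c hc m => ?_⟩
    rw [Pi.smul_apply, Pi.smul_apply, ha c hc m]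

/-- bounded support in `m` -/
lemma GS_decay {f : Pt Ω → ℝ} (hf : f ∈ D.GS) : ∃ M, ∀ m ≥ M, ∀ v, f (v, m) = 0 := by
  classical
  unfold LD.GS at hf
  induction hf using Submodule.span_induction with
  | mem f hf =>
    rcases hf with ⟨v, m₀, hv, rfl⟩ | ⟨N', β', m₀, hβ', rfl⟩
    · refine ⟨m₀ + 1, fun m hm w => ?_⟩
      have h1 : ¬ ((w, m) = (v, m₀)) := by
        intro h
        have := (Prod.mk.inj h).2
        omega
      simp only []
      rw [if_neg h1]
    · refine ⟨m₀ + 1, fun m hm w => ?_⟩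
      have h1 : ¬ (m = m₀) := by omega
      simp only []
      rw [if_neg h1]
  | zero => exact ⟨0, fun _ _ _ => rfl⟩
  | add f g _ _ hf hg =>
    obtain ⟨a, ha⟩ := hf
    obtain ⟨b, hb⟩ := hg
    refine ⟨max a b, fun c hc v => ?_⟩
    rw [Pi.add_apply, ha c (le_trans (le_max_left _ _) hc) v,
      hb c (le_trans (le_max_right _ _) hc) v, add_zero]
  | smul r f _ hf =>
    obtain ⟨a, ha⟩ := hf
    refine ⟨a, fun c hc v => ?_⟩
    rw [Pi.smul_apply, ha c hc v, smul_zero]

lemma val_sub_le {Y : Type} [NormedAddCommGroup Y] [NormedSpace ℝ Y]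
    {val : Y →ₗ[ℝ] (Pt Ω → ℝ)} (h : D.IsSp val) (y y' : Y) (p : Pt Ω) :
    |val y p - val y' p| ≤ ‖y - y'‖ := by
  have := (h.bd (y - y')).pt p
  rwa [map_sub, Pi.sub_apply] at this

/-- uniform bounds of the tests of the elements of `GS` -/
lemma GS_tests (hN : Stmt_Nice) {f : Pt Ω → ℝ} (hf : f ∈ D.GS) : ∃ (B : ℝ) (N₀ : ℕ), 0 ≤ B ∧
    (∀ v, ∀ ms : ℕ → ℕ, Monotone ms → ∀ K,
      ∑ i ∈ Finset.range K, |f (v, ms (i + 1)) - f (v, ms i)| ≤ B) ∧
    (∀ (N : ℕ) (β : Ω), NonMin β → ∀ a b m : ℕ → ℕ, (∀ i, a i ≤ b i ∧ b i ≤ a (i + 1)) → ∀ K,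
      ∑ i ∈ Finset.range K, |f (st N (D.lad β (a i)), m i) - f (st N (D.lad β (b i)), m i)| ≤ B) ∧
    (∀ n ≥ N₀, ∀ (β : Ω) (l m : ℕ), f ((n, β, l), m) = 0) := by
  classical
  -- tensors
  have key : ∀ (ψ : Vx Ω → ℝ) (m₀ : ℕ), ψ ∈ D.SS →
      ∃ B : ℝ, 0 ≤ B ∧ (∀ v, ∀ ms : ℕ → ℕ, Monotone ms → ∀ K,
        ∑ i ∈ Finset.range K, |tens ψ (fun m => if m = m₀ then 1 else 0) (v, ms (i + 1)) -
          tens ψ (fun m => if m = m₀ then 1 else 0) (v, ms i)| ≤ B) ∧
      (∀ (N : ℕ) (β : Ω), NonMin β → ∀ a b m : ℕ → ℕ, (∀ i, a i ≤ b i ∧ b i ≤ a (i + 1)) → ∀ K,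
        ∑ i ∈ Finset.range K, |tens ψ (fun m => if m = m₀ then 1 else 0) (st N (D.lad β (a i)), m i)
          - tens ψ (fun m => if m = m₀ then 1 else 0) (st N (D.lad β (b i)), m i)| ≤ B) := by
    intro ψ m₀ hψ
    obtain ⟨C, hC, hNice⟩ := hN Ω D ψ hψ
    refine ⟨2 * C, by linarith, ?_, ?_⟩
    · intro v ms hms K
      have h1 : ∀ i, |tens ψ (fun m => if m = m₀ then 1 else 0) (v, ms (i + 1)) -
          tens ψ (fun m => if m = m₀ then 1 else 0) (v, ms i)| =
          |ψ v| * |(fun m => if m = m₀ then (1 : ℝ) else 0) (ms (i + 1)) -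
            (fun m => if m = m₀ then (1 : ℝ) else 0) (ms i)| := by
        intro i
        rw [← abs_mul]
        unfold tens
        congr 1
        simp only []
        ring
      rw [Finset.sum_congr rfl (fun i _ => h1 i), ← Finset.mul_sum]
      have h2 := TVle_single m₀ ms hms K
      calc |ψ v| * _ ≤ C * 2 := mul_le_mul (hNice.pt v) h2
            (Finset.sum_nonneg fun i _ => abs_nonneg _) hC
        _ = 2 * C := by ring
    · intro N β hβ a b m hab K
      have h1 : ∀ i, |tens ψ (fun m => if m = m₀ then 1 else 0) (st N (D.lad β (a i)), m i)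
          - tens ψ (fun m => if m = m₀ then 1 else 0) (st N (D.lad β (b i)), m i)| ≤
          |ψ (st N (D.lad β (a i))) - ψ (st N (D.lad β (b i)))| := by
        intro i
        unfold tens
        simp only []
        rw [← sub_mul, abs_mul]
        apply mul_le_of_le_one_right (abs_nonneg _)
        split_ifs <;> simp
      refine (Finset.sum_le_sum fun i _ => h1 i).trans ?_
      have h2 := TVle.interlace (hNice.path N β hβ) hab K
      linarith
  unfold LD.GS at hf
  induction hf using Submodule.span_induction with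
  | mem f hf =>
    rcases hf with ⟨v, m₀, hv, rfl⟩ | ⟨N', β', m₀, hβ', rfl⟩
    · obtain ⟨B, hB, h1, h2⟩ := key (fun w => if w = v then 1 else 0) m₀
        (Submodule.subset_span (Or.inl ⟨v, hv, rfl⟩))
      have hfun : (fun p : Pt Ω => if p = (v, m₀) then (1 : ℝ) else 0) =
          tens (fun w => if w = v then 1 else 0) (fun m => if m = m₀ then 1 else 0) := by
        funext p
        obtain ⟨w, m⟩ := p
        unfold tens
        by_cases hw : w = v <;> by_cases hm : m = m₀ <;> simp [hw, hm]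
      refine ⟨B, v.1 + 1, hB, ?_, ?_, ?_⟩
      · rw [hfun]; exact h1
      · rw [hfun]; exact h2
      · intro n hn β l m
        have h3 : ¬ ((((n, β, l) : Vx Ω), m) = (v, m₀)) := by
          intro h
          have h4 := (Prod.mk.inj h).1
          rw [← h4] at hn
          simp at hn
        simp only []
        rw [if_neg h3]
    · obtain ⟨B, hB, h1, h2⟩ := key (D.G N' β') m₀
        (Submodule.subset_span (Or.inr ⟨N', β', hβ', rfl⟩))
      have hfun : (fun p : Pt Ω => if p.2 = m₀ then D.G N' β' p.1 else 0) =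
          tens (D.G N' β') (fun m => if m = m₀ then 1 else 0) := by
        funext p
        unfold tens
        by_cases hp : p.2 = m₀ <;> simp [hp]
      refine ⟨B, N' + 1, hB, ?_, ?_, ?_⟩
      · rw [hfun]; exact h1
      · rw [hfun]; exact h2
      · intro n hn β l m
        have h3 : D.G N' β' (n, β, l) = 0 := by
          unfold LD.G
          rw [if_neg]
          rintro ⟨h4, -⟩
          simp only at h4
          omega
        simp only [h3, ite_self]
  | zero =>
    refine ⟨0, 0, le_rfl, ?_, ?_, fun _ _ _ _ _ => rfl⟩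
    · intro v ms _ K; simp
    · intro N β _ a b m _ K; simp
  | add f g _ _ hf hg =>
    obtain ⟨B, n₁, hB, h1, h2, h3⟩ := hf
    obtain ⟨B', n₂, hB', h1', h2', h3'⟩ := hg
    refine ⟨B + B', max n₁ n₂, add_nonneg hB hB', ?_, ?_, ?_⟩
    · intro v ms hms K
      refine le_trans ?_ (add_le_add (h1 v ms hms K) (h1' v ms hms K))
      rw [← Finset.sum_add_distrib]
      apply Finset.sum_le_sum
      intro i _
      rw [Pi.add_apply, Pi.add_apply]
      have : f (v, ms (i + 1)) + g (v, ms (i + 1)) - (f (v, ms i) + g (v, ms i)) =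
        (f (v, ms (i + 1)) - f (v, ms i)) + (g (v, ms (i + 1)) - g (v, ms i)) := by ring
      rw [this]
      exact abs_add_le _ _
    · intro N β hβ a b m hab K
      refine le_trans ?_ (add_le_add (h2 N β hβ a b m hab K) (h2' N β hβ a b m hab K))
      rw [← Finset.sum_add_distrib]
      apply Finset.sum_le_sum
      intro i _
      rw [Pi.add_apply, Pi.add_apply]
      have : ∀ p q p' q' : ℝ, p + q - (p' + q') = (p - p') + (q - q') := by intros; ring
      rw [this]
      exact abs_add_le _ _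
    · intro n hn β l m
      rw [Pi.add_apply, h3 n (le_trans (le_max_left _ _) hn), h3' n (le_trans (le_max_right _ _) hn),
        add_zero]
  | smul r f _ hf =>
    obtain ⟨B, n₁, hB, h1, h2, h3⟩ := hf
    refine ⟨|r| * B, n₁, mul_nonneg (abs_nonneg _) hB, ?_, ?_, ?_⟩
    · intro v ms hms K
      have h4 := h1 v ms hms K
      have h5 : ∀ i, |(r • f) (v, ms (i + 1)) - (r • f) (v, ms i)| =
          |r| * |f (v, ms (i + 1)) - f (v, ms i)| := by
        intro i
        rw [Pi.smul_apply, Pi.smul_apply, smul_eq_mul, smul_eq_mul, ← mul_sub, abs_mul]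
      rw [Finset.sum_congr rfl (fun i _ => h5 i), ← Finset.mul_sum]
      exact mul_le_mul_of_nonneg_left h4 (abs_nonneg _)
    · intro N β hβ a b m hab K
      have h4 := h2 N β hβ a b m hab K
      have h5 : ∀ i, |(r • f) (st N (D.lad β (a i)), m i) - (r • f) (st N (D.lad β (b i)), m i)| =
          |r| * |f (st N (D.lad β (a i)), m i) - f (st N (D.lad β (b i)), m i)| := by
        intro i
        rw [Pi.smul_apply, Pi.smul_apply, smul_eq_mul, smul_eq_mul, ← mul_sub, abs_mul]
      rw [Finset.sum_congr rfl (fun i _ => h5 i), ← Finset.mul_sum]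
      exact mul_le_mul_of_nonneg_left h4 (abs_nonneg _)
    · intro n hn β l m
      rw [Pi.smul_apply, h3 n hn, smul_zero]

end

end H72

open H72

theorem stmt_O1 : Stmt_O1 := by
  intro Ω _ D Y _ _ val h y ε hε
  obtain ⟨y', hy', hyy⟩ := h.dense y ε hε
  obtain ⟨M, hM⟩ := GS_decay D hy'
  refine ⟨M, fun m hm v => ?_⟩
  have h1 := val_sub_le D h y y' (v, m)
  rw [hM m hm v, sub_zero] at h1
  exact h1.trans hyy.le

theorem stmt_O2 : Stmt_O2 := by
  intro Ω _ D Y _ _ val h y N β hβ ε hε
  obtain ⟨y', hy', hyy⟩ := h.dense y (ε / 2) (by linarith)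
  obtain ⟨a₀, ha₀⟩ := GS_ladder D hy' N β hβ
  refine ⟨a₀, fun a ha m => ?_⟩
  have h1 := val_sub_le D h y y' (st N (D.lad β a), m)
  have h2 := val_sub_le D h y y' ((N, β, 0), m)
  have h3 := ha₀ a ha m
  rw [abs_le] at h1 h2 ⊢
  constructor <;> linarith [h1.1, h1.2, h2.1, h2.2]

theorem stmt_O3 (hN : Stmt_Nice) : Stmt_O3 := by
  intro Ω _ D Y _ _ val h y ε hε
  obtain ⟨y', hy', hyy⟩ := h.dense y (ε / 2) (by linarith)
  obtain ⟨B, N₀, hB, h1, h2, h3⟩ := GS_tests D hN hy'
  obtain ⟨n₁, hn₁⟩ := exists_nat_ge (B / (ε / 2))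
  have hbd := h.bd (y - y')
  rw [map_sub] at hbd
  refine ⟨max N₀ n₁, fun n hn => ?_⟩
  have hth : B ≤ ε / 2 * (th n : ℝ) := by
    have e1 : (n₁ : ℝ) ≤ (th n : ℝ) := by
      exact_mod_cast (le_trans (le_trans (le_max_right _ _) hn) (le_th n))
    have e2 : B / (ε / 2) ≤ (th n : ℝ) := hn₁.trans e1
    rw [div_le_iff₀ (by linarith)] at e2
    linarith
  have hth0 : (0 : ℝ) ≤ (th n : ℝ) := by positivity
  have hsm : ‖y - y'‖ * (th n : ℝ) ≤ ε / 2 * (th n : ℝ) :=
    mul_le_mul_of_nonneg_right hyy.le hth0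
  constructor
  · intro β l m
    have e1 := hbd.link n β l m
    rw [Pi.sub_apply, Pi.sub_apply, h3 n (le_trans (le_max_left _ _) hn),
      h3 n (le_trans (le_max_left _ _) hn), sub_zero, sub_zero] at e1
    linarith
  · intro c hc v hv hd ms hms
    have e1 := hbd.fib n c hc v hv hd ms hms
    have e2 := h1 v ms hms (Kn n)
    have e3 : ∑ i ∈ Finset.range (Kn n), |val y (v, ms (i + 1)) - val y (v, ms i)| ≤
        ∑ i ∈ Finset.range (Kn n), |(val y - val y') (v, ms (i + 1)) - (val y - val y') (v, ms i)| +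
        ∑ i ∈ Finset.range (Kn n), |val y' (v, ms (i + 1)) - val y' (v, ms i)| := by
      rw [← Finset.sum_add_distrib]
      apply Finset.sum_le_sum
      intro i _
      rw [Pi.sub_apply, Pi.sub_apply]
      have : val y (v, ms (i + 1)) - val y (v, ms i) =
        (val y (v, ms (i + 1)) - val y' (v, ms (i + 1)) - (val y (v, ms i) - val y' (v, ms i))) +
          (val y' (v, ms (i + 1)) - val y' (v, ms i)) := by ring
      conv_lhs => rw [this]
      exact abs_add_le _ _
    linarith
  · intro hc N β hβ a b m hab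
    have e1 := hbd.path n hc N β hβ a b m hab
    have e2 := h2 N β hβ a b m hab (Kn n)
    have e3 : ∑ i ∈ Finset.range (Kn n), |val y (st N (D.lad β (a i)), m i) -
          val y (st N (D.lad β (b i)), m i)| ≤
        ∑ i ∈ Finset.range (Kn n), |(val y - val y') (st N (D.lad β (a i)), m i) -
          (val y - val y') (st N (D.lad β (b i)), m i)| +
        ∑ i ∈ Finset.range (Kn n), |val y' (st N (D.lad β (a i)), m i) -
          val y' (st N (D.lad β (b i)), m i)| := by
      rw [← Finset.sum_add_distrib]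
      apply Finset.sum_le_sum
      intro i _
      rw [Pi.sub_apply, Pi.sub_apply]
      have : ∀ p q p' q' : ℝ, p - q = (p - p' - (q - q')) + (p' - q') := by intros; ring
      conv_lhs => rw [this _ _ (val y' (st N (D.lad β (a i)), m i))
        (val y' (st N (D.lad β (b i)), m i))]
      exact abs_add_le _ _
    linarith

end Pool.Agent.MP156639
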