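import Pool.Agent.Work.MP_156639_an_helper72.O13

/-!
# MP_156639_an : blocks O4, O5
-/

set_option autoImplicit false

open scoped BigOperators
open Filter Topology

namespace Pool.Agent.MP156639

namespace H72

section

variable {Ω : Type} [LinearOrder Ω] (D : LD Ω)

/-- elements of `GS` vanish beyond some block -/
lemma GS_blocks [Nonempty Ω] {f : Pt Ω → ℝ} (hf : f ∈ D.GS) :
    ∃ b : Ω, ∀ v : Vx Ω, b < v.2.1 → ∀ m, f (v, m) = 0 := by
  classical
  unfold LD.GS at hf
  induction hf using Submodule.span_induction with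
  | mem f hf =>
    rcases hf with ⟨v, m₀, hv, rfl⟩ | ⟨N', β', m₀, hβ', rfl⟩
    · refine ⟨v.2.1, fun w hw m => ?_⟩
      have h1 : ¬ ((w, m) = (v, m₀)) := by
        intro h
        rw [(Prod.mk.inj h).1] at hw
        exact lt_irrefl _ hw
      simp only []
      rw [if_neg h1]
    · refine ⟨β', fun w hw m => ?_⟩
      have h1 : D.G N' β' w = 0 := by
        unfold LD.G
        rw [if_neg]
        rintro ⟨-, h | ⟨a, h⟩⟩
        · have h2 : (ns w).1 = w.2.1 := rfl
          rw [h] at h2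
          simp only at h2
          rw [h2] at hw
          exact lt_irrefl _ hw
        · have h2 : (ns w).1 = w.2.1 := rfl
          rw [h] at h2
          have h3 := D.lad_lt β' hβ' a
          rw [h2] at h3
          exact lt_asymm hw h3
      simp only [h1, ite_self]
  | zero =>
    obtain ⟨b⟩ := ‹Nonempty Ω›
    exact ⟨b, fun _ _ _ => rfl⟩
  | add f g _ _ hf hg =>
    obtain ⟨a, ha⟩ := hf
    obtain ⟨b, hb⟩ := hg
    refine ⟨max a b, fun v hv m => ?_⟩
    rw [Pi.add_apply, ha v (lt_of_le_of_lt (le_max_left _ _) hv) m,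
      hb v (lt_of_le_of_lt (le_max_right _ _) hv) m, add_zero]
  | smul r f _ hf =>
    obtain ⟨a, ha⟩ := hf
    refine ⟨a, fun v hv m => ?_⟩
    rw [Pi.smul_apply, ha v hv m, smul_zero]

/-- normal form of the elements of `GS` -/
lemma GS_normal {f : Pt Ω → ℝ} (hf : f ∈ D.GS) :
    ∃ (Γ : Finset (ℕ × Ω)) (x : ℕ × Ω → ℕ → ℝ) (r : Pt Ω → ℝ), (∀ g ∈ Γ, NonMin g.2) ∧
      (∀ g, g ∉ Γ → x g = 0) ∧ {p | r p ≠ 0}.Finite ∧ (∀ p, Lim p.1 → r p = 0) ∧
      ∀ p, f p = ∑ g ∈ Γ, D.G g.1 g.2 p.1 * x g p.2 + r p := by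
  classical
  unfold LD.GS at hf
  induction hf using Submodule.span_induction with
  | mem f hf =>
    rcases hf with ⟨v, m₀, hv, rfl⟩ | ⟨N', β', m₀, hβ', rfl⟩
    · refine ⟨∅, 0, fun p => if p = (v, m₀) then 1 else 0, by simp, by simp, ?_, ?_, by simp⟩
      · apply (Set.finite_singleton (v, m₀)).subset
        intro p hp
        simp only [Set.mem_ofPred_eq] at hp
        by_contra hne
        rw [Set.mem_singleton_iff] at hne
        apply hp
        rw [if_neg hne]
      · intro p hp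
        show (if p = (v, m₀) then (1 : ℝ) else 0) = 0
        rw [if_neg]
        rintro rfl
        exact hv hp
    · refine ⟨{(N', β')}, fun g m => if g = (N', β') ∧ m = m₀ then 1 else 0, 0, ?_, ?_, ?_, ?_, ?_⟩
      · intro g hg
        rw [Finset.mem_singleton] at hg
        rw [hg]; exact hβ'
      · intro g hg
        rw [Finset.mem_singleton] at hg
        funext m
        simp [hg]
      · simp
      · intro p _; rfl
      · intro p
        rw [Finset.sum_singleton]
        simp only [true_and, Pi.zero_apply, add_zero, mul_ite, mul_one, mul_zero]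
  | zero => exact ⟨∅, 0, 0, by simp, by simp, by simp, by simp, by simp⟩
  | add f g _ _ hf hg =>
    obtain ⟨Γ, x, r, h1, h2, h3, h4, h5⟩ := hf
    obtain ⟨Γ', x', r', h1', h2', h3', h4', h5'⟩ := hg
    refine ⟨Γ ∪ Γ', fun g => x g + x' g, fun p => r p + r' p, ?_, ?_, ?_, ?_, ?_⟩
    · intro g hg
      rcases Finset.mem_union.1 hg with h | h
      · exact h1 g h
      · exact h1' g h
    · intro g hg
      rw [Finset.mem_union, not_or] at hg
      simp only [h2 g hg.1, h2' g hg.2, add_zero]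
    · apply (h3.union h3').subset
      intro p hp
      simp only [Set.mem_ofPred_eq, Set.mem_union] at hp ⊢
      by_contra hcon
      push Not at hcon
      apply hp
      rw [hcon.1, hcon.2, add_zero]
    · intro p hp
      show r p + r' p = 0
      rw [h4 p hp, h4' p hp, add_zero]
    · intro p
      have e1 : ∑ g ∈ Γ ∪ Γ', D.G g.1 g.2 p.1 * x g p.2 = ∑ g ∈ Γ, D.G g.1 g.2 p.1 * x g p.2 := by
        symm
        apply Finset.sum_subset Finset.subset_union_left
        intro g _ hg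
        rw [h2 g hg]; simp
      have e2 : ∑ g ∈ Γ ∪ Γ', D.G g.1 g.2 p.1 * x' g p.2 =
          ∑ g ∈ Γ', D.G g.1 g.2 p.1 * x' g p.2 := by
        symm
        apply Finset.sum_subset Finset.subset_union_right
        intro g _ hg
        rw [h2' g hg]; simp
      rw [Pi.add_apply, h5 p, h5' p, ← e1, ← e2]
      simp only [Pi.add_apply, mul_add, Finset.sum_add_distrib]
      ring
  | smul c f _ hf =>
    obtain ⟨Γ, x, r, h1, h2, h3, h4, h5⟩ := hf
    refine ⟨Γ, fun g => c • x g, fun p => c * r p, h1, ?_, ?_, ?_, ?_⟩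
    · intro g hg
      simp only [h2 g hg, smul_zero]
    · apply h3.subset
      intro p hp
      simp only [Set.mem_ofPred_eq] at hp ⊢
      intro h
      apply hp
      rw [h, mul_zero]
    · intro p hp
      show c * r p = 0
      rw [h4 p hp, mul_zero]
    · intro p
      rw [Pi.smul_apply, h5 p, smul_eq_mul, mul_add, Finset.mul_sum]
      congr 1
      apply Finset.sum_congr rfl
      intro g _
      simp only [Pi.smul_apply, smul_eq_mul]
      ring

lemma window_finite (N : ℕ) (s : Ω × ℕ) : {v : Vx Ω | v.1 = N ∧ ns v = s}.Finite := by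
  have h1 : {v : Vx Ω | v.1 = N ∧ ns v = s} ⊆
      (fun l : ℕ => ((N, s.1, l) : Vx Ω)) '' {l | l < 2 * (N + 1) * (s.2 + 1)} := by
    rintro ⟨N', β, l⟩ ⟨hN, hs⟩
    simp only at hN
    subst hN
    refine ⟨l, ?_, ?_⟩
    · have h2 : (ns ((N', β, l) : Vx Ω)).2 = near N' l := rfl
      rw [hs] at h2
      unfold near at h2
      have h3 : l + (N' + 1) < 2 * (N' + 1) * (s.2 + 1) := by
        rw [h2]
        exact Nat.lt_mul_div_succ _ (by omega)
      simp only [Set.mem_ofPred_eq]
      omega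
    · have h2 : (ns ((N', β, l) : Vx Ω)).1 = β := rfl
      rw [hs] at h2
      simp only [h2]
  exact ((Set.finite_lt_nat _).image _).subset h1

lemma windowM_finite (N : ℕ) (s : Ω × ℕ) (M : ℕ) :
    {p : Pt Ω | p.2 < M ∧ p.1.1 = N ∧ ns p.1 = s}.Finite := by
  have h1 : {p : Pt Ω | p.2 < M ∧ p.1.1 = N ∧ ns p.1 = s} ⊆
      {v : Vx Ω | v.1 = N ∧ ns v = s} ×ˢ {m : ℕ | m < M} := by
    rintro ⟨v, m⟩ ⟨h1, h2, h3⟩
    exact ⟨⟨h2, h3⟩, h1⟩
  exact ((window_finite N s).prod (Set.finite_lt_nat M)).subset h1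

omit [LinearOrder Ω] in
lemma tent_abs_le (N l : ℕ) : |tent N l| ≤ 1 := by
  unfold tent
  have hN : (0 : ℝ) < (N : ℝ) + 1 := by positivity
  have h1 : 2 * (N + 1) * near N l ≤ l + (N + 1) := by
    unfold near
    exact Nat.mul_div_le _ _
  have h2 : l + (N + 1) < 2 * (N + 1) * (near N l + 1) := by
    unfold near
    exact Nat.lt_mul_div_succ _ (by omega)
  have h1' : (2 * ((N : ℝ) + 1) * (near N l : ℝ)) ≤ (l : ℝ) + (N + 1) := by exact_mod_cast h1
  have h2' : (l : ℝ) + (N + 1) < 2 * ((N : ℝ) + 1) * ((near N l : ℝ) + 1) := by exact_mod_cast h2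
  have h3 : |(l : ℝ) - 2 * ((N : ℝ) + 1) * (near N l : ℝ)| ≤ (N : ℝ) + 1 := by
    rw [abs_le]
    constructor <;> nlinarith
  have h4 : |(l : ℝ) - 2 * ((N : ℝ) + 1) * (near N l : ℝ)| / ((N : ℝ) + 1) ≤ 1 := by
    rw [div_le_one hN]; exact h3
  have h5 : 0 ≤ |(l : ℝ) - 2 * ((N : ℝ) + 1) * (near N l : ℝ)| / ((N : ℝ) + 1) := by positivity
  rw [abs_le]
  constructor <;> linarith

end

end H72

open H72

theorem stmt_O4 : Stmt_O4 := by
  intro Ω _ _ D hc hu Y _ _ val h S hS
  classical
  have hne : Nonempty Ω := by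
    by_contra hcon
    rw [not_nonempty_iff] at hcon
    apply hu
    rw [Set.univ_eq_empty_iff.2 hcon]
    exact Set.countable_empty
  obtain ⟨c, hcc, hSc⟩ := hS
  -- approximations
  have hex : ∀ (y : Y) (n : ℕ), ∃ (y' : Y) (b : Ω), ‖y - y'‖ < 1 / ((n : ℝ) + 1) ∧
      ∀ v : Vx Ω, b < v.2.1 → ∀ m, val y' (v, m) = 0 := by
    intro y n
    obtain ⟨y', hy', hyy⟩ := h.dense y (1 / ((n : ℝ) + 1)) (by positivity)
    obtain ⟨b, hb⟩ := GS_blocks D hy'
    exact ⟨y', b, hyy, hb⟩
  choose ap bl hap hbl using hex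
  -- a bound for countably many blocks
  set U : Set Ω := ⋃ y ∈ c, ⋃ n : ℕ, Set.Iic (bl y n) with hU
  have hUc : U.Countable := by
    apply hcc.biUnion
    intro y _
    apply Set.countable_iUnion
    intro n
    have : Set.Iic (bl y n) = insert (bl y n) (Set.Iio (bl y n)) := by
      ext z
      simp [le_iff_eq_or_lt]
    rw [this]
    exact (hc _).insert _
  obtain ⟨βs, hβs⟩ : ∃ βs, βs ∉ U := by
    by_contra hcon
    push Not at hcon
    apply hu
    exact hUc.mono (fun z _ => hcon z)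
  have hlt : ∀ y ∈ c, ∀ n, bl y n < βs := by
    intro y hy n
    by_contra hcon
    push Not at hcon
    apply hβs
    simp only [hU, Set.mem_iUnion]
    exact ⟨y, hy, n, hcon⟩
  refine ⟨βs, fun y hy v hv m => ?_⟩
  -- elements of `c`
  have hcz : ∀ y ∈ c, val y (v, m) = 0 := by
    intro y hy
    have h1 : ∀ n : ℕ, |val y (v, m)| ≤ 1 / ((n : ℝ) + 1) := by
      intro n
      have h2 := val_sub_le D h y (ap y n) (v, m)
      rw [hbl y n v (lt_of_lt_of_le (hlt y hy n) hv) m, sub_zero] at h2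
      exact h2.trans (hap y n).le
    have h2 : |val y (v, m)| ≤ 0 := by
      apply le_of_forall_pos_le_add
      intro ε hε
      obtain ⟨n, hn⟩ := exists_nat_one_div_lt hε
      linarith [h1 n]
    exact abs_eq_zero.1 (le_antisymm h2 (abs_nonneg _))
  have h2 : |val y (v, m)| ≤ 0 := by
    apply le_of_forall_pos_le_add
    intro ε hε
    obtain ⟨y', hy', hyy⟩ := Metric.mem_closure_iff.1 (hSc hy) ε hε
    have h3 := val_sub_le D h y y' (v, m)
    rw [hcz y' hy', sub_zero] at h3
    rw [dist_eq_norm] at hyy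
    linarith
  exact abs_eq_zero.1 (le_antisymm h2 (abs_nonneg _))

theorem stmt_O5 : Stmt_O5 := by
  intro Ω _ D Y _ _ val h y ε hε
  classical
  obtain ⟨y', hy', hyy⟩ := h.dense y (ε / 2) (by linarith)
  obtain ⟨M, hM⟩ := GS_decay D hy'
  obtain ⟨Γ, x, r, h1, h2, h3, h4, h5⟩ := GS_normal D hy'
  have hy0 : ∀ p, |val y p - val y' p| ≤ ε / 2 := fun p => (val_sub_le D h y y' p).trans hyy.le
  -- values at the limit vertices
  have hlim : ∀ g ∈ Γ, ∀ m, val y' ((g.1, g.2, 0), m) = x g m := by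
    intro g hg m
    rw [h5, h4 _ ⟨rfl, h1 g hg⟩, add_zero, Finset.sum_eq_single g]
    · have : D.G g.1 g.2 (g.1, g.2, 0) = 1 := by
        rw [G_lim, if_pos ⟨rfl, Or.inl rfl⟩]
      simp only [this, one_mul]
    · intro g' hg' hne
      have : D.G g'.1 g'.2 (g.1, g.2, 0) = 0 := by
        rw [G_lim, if_neg]
        rintro ⟨e1, e2⟩
        rw [inLad_lim_iff D g'.2 g.2 (h1 g' hg')] at e2
        exact hne (Prod.ext e1.symm e2.symm)
      simp only [this, zero_mul]
    · intro hg'; exact absurd hg hg'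
  set F₁ : Set (Pt Ω) := ⋃ g ∈ Γ, {p : Pt Ω | p.2 < M ∧ p.1.1 = g.1 ∧ ns p.1 = (g.2, 0)} with hF₁
  set F₂ : Set (Pt Ω) := ⋃ g ∈ Γ, ⋃ g' ∈ Γ, {p : Pt Ω | g.2 ≠ g'.2 ∧ p.2 < M ∧ p.1.1 = g.1 ∧
    ∃ a, ns p.1 = D.lad g.2 a ∧ D.lad g.2 a = D.lad g'.2 a} with hF₂
  refine ⟨{p | r p ≠ 0} ∪ F₁ ∪ F₂, (Γ : Set (ℕ × Ω)), M, ?_, Γ.finite_toSet,
    fun g hg => h1 g (by simpa using hg), ?_, ?_⟩
  · refine (h3.union ?_).union ?_
    · exact Set.Finite.biUnion Γ.finite_toSet (fun g _ => windowM_finite g.1 (g.2, 0) M)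
    · refine Set.Finite.biUnion Γ.finite_toSet (fun g hg => ?_)
      refine Set.Finite.biUnion Γ.finite_toSet (fun g' hg' => ?_)
      by_cases hgg : g.2 = g'.2
      · simp [hgg]
      · obtain ⟨a₀, ha₀⟩ := D.lad_ad g.2 g'.2 (h1 g (by simpa using hg))
          (h1 g' (by simpa using hg')) hgg
        apply (Set.Finite.biUnion (Set.finite_lt_nat a₀)
          (fun a _ => windowM_finite g.1 (D.lad g.2 a) M)).subset
        rintro p ⟨-, e1, e2, a, e3, e4⟩
        simp only [Set.mem_iUnion]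
        refine ⟨a, ?_, e1, e2, e3⟩
        by_contra hcon
        exact ha₀ a (not_lt.1 hcon) e4
  · intro m hm v
    have e1 := hy0 (v, m)
    rw [hM m hm v, sub_zero] at e1
    linarith
  · intro p hp
    simp only [Set.mem_union, not_or] at hp
    obtain ⟨⟨hpr, hpF₁⟩, hpF₂⟩ := hp
    have hpr0 : r p = 0 := by
      by_contra hne; exact hpr hne
    by_cases hm : p.2 < M
    swap
    · left
      have e1 := hy0 p
      have e2 : val y' p = 0 := hM p.2 (not_lt.1 hm) p.1
      rw [e2, sub_zero] at e1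
      linarith
    by_cases hg : ∃ g ∈ Γ, p.1.1 = g.1 ∧ ∃ a, ns p.1 = D.lad g.2 a
    · obtain ⟨g, hg, hg1, a, ha⟩ := hg
      right
      refine ⟨g, by simpa using hg, hg1, ⟨a, ha⟩, ?_⟩
      have e1 : val y' p = tent p.1.1 p.1.2.2 * val y' ((g.1, g.2, 0), p.2) := by
        rw [hlim g hg, h5 p, hpr0, add_zero, Finset.sum_eq_single g]
        · have : D.G g.1 g.2 p.1 = tent p.1.1 p.1.2.2 := by
            unfold LD.G
            rw [if_pos ⟨hg1, Or.inr ⟨a, ha⟩⟩]
          rw [this]
        · intro g' hg' hne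
          have : D.G g'.1 g'.2 p.1 = 0 := by
            unfold LD.G
            rw [if_neg]
            rintro ⟨e1, e2⟩
            have hb : g.2 ≠ g'.2 := by
              intro h6
              exact hne (Prod.ext (e1.symm.trans hg1) h6.symm)
            rcases e2 with e2 | ⟨a', e2⟩
            · rw [ha] at e2
              exact lad_ne D g.2 g'.2 (h1 g hg) a e2
            · rw [ha] at e2
              have h7 := (D.lad_tree g.2 g'.2 (h1 g hg) (h1 g' hg') a a' e2).1
              subst h7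
              apply hpF₂
              simp only [hF₂, Set.mem_iUnion]
              exact ⟨g, hg, g', hg', hb, hm, hg1, a, ha, e2⟩
          rw [this, zero_mul]
        · intro h6; exact absurd hg h6
      have e2 := hy0 p
      have e3 := hy0 ((g.1, g.2, 0), p.2)
      have e4 := tent_abs_le p.1.1 p.1.2.2
      have e5 : val y p - tent p.1.1 p.1.2.2 * val y ((g.1, g.2, 0), p.2) =
          (val y p - val y' p) - tent p.1.1 p.1.2.2 *
            (val y ((g.1, g.2, 0), p.2) - val y' ((g.1, g.2, 0), p.2)) := by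
        rw [e1]; ring
      rw [e5]
      refine (abs_sub _ _).trans ?_
      rw [abs_mul]
      have e6 : |tent p.1.1 p.1.2.2| *
          |val y ((g.1, g.2, 0), p.2) - val y' ((g.1, g.2, 0), p.2)| ≤ 1 * (ε / 2) :=
        mul_le_mul e4 e3 (abs_nonneg _) zero_le_one
      linarith
    · left
      push Not at hg
      have e1 : val y' p = 0 := by
        rw [h5 p, hpr0, add_zero]
        apply Finset.sum_eq_zero
        intro g hgΓ
        have : D.G g.1 g.2 p.1 = 0 := by
          unfold LD.G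
          rw [if_neg]
          rintro ⟨e1, e2⟩
          rcases e2 with e2 | ⟨a', e2⟩
          · apply hpF₁
            simp only [hF₁, Set.mem_iUnion]
            exact ⟨g, hgΓ, hm, e1, e2⟩
          · exact hg g hgΓ e1 a' e2
        rw [this, zero_mul]
      have e2 := hy0 p
      rw [e1, sub_zero] at e2
      linarith

end Pool.Agent.MP156639
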