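import Pool.Agent.Work.MP_156639_an.Interface

/-!
# MP_156639_an : block AS
-/

set_option autoImplicit false

open scoped BigOperators
open Filter Topology

namespace Pool.Agent.MP156639

namespace H72AS

lemma clamp_diff {s t x y : ℝ} (ht : 0 ≤ t) (hts : t ≤ s) (hxy : y ≤ x) :
    max (-t) (min t x) - max (-t) (min t y) ≤ max (-s) (min s x) - max (-s) (min s y) := by
  rcases le_total t x with h1 | h1 <;> rcases le_total t y with h2 | h2 <;>
  rcases le_total s x with h3 | h3 <;> rcases le_total s y with h4 | h4 <;>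
  simp only [min_eq_left, min_eq_right, h1, h2, h3, h4] <;>
  rcases le_total (-t) x with h5 | h5 <;> rcases le_total (-t) y with h6 | h6 <;>
  rcases le_total (-s) x with h7 | h7 <;> rcases le_total (-s) y with h8 | h8 <;>
  simp only [max_eq_left, max_eq_right, h5, h6, h7, h8, neg_le_self ht,
    neg_le_self (ht.trans hts)] <;>
  linarith

lemma clamp_le {t x y : ℝ} (hxy : y ≤ x) :
    max (-t) (min t x) - max (-t) (min t y) ≤ x - y := by
  have h1 : min t x ≤ min t y + (x - y) := by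
    rcases le_total t y with h | h
    · rw [min_eq_left h, min_eq_left (h.trans hxy)]; linarith
    · rw [min_eq_right h]
      have := min_le_right t x
      linarith
  have h2 : max (-t) (min t x) ≤ max (-t) (min t y) + (x - y) := by
    apply max_le
    · have := le_max_left (-t) (min t y)
      linarith
    · have := le_max_right (-t) (min t y)
      linarith
  linarith

lemma soft_nonneg {J : ℕ} {x y : ℝ} (hxy : y ≤ x) : 0 ≤ soft J x - soft J y := by
  unfold soft
  have := clamp_le (t := 1 / ((J : ℝ) + 1)) hxy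
  linarith

lemma soft_mono {J J' : ℕ} (hJ : J ≤ J') {x y : ℝ} (hxy : y ≤ x) :
    soft J x - soft J y ≤ soft J' x - soft J' y := by
  unfold soft
  have h0 : (0 : ℝ) ≤ 1 / ((J' : ℝ) + 1) := by positivity
  have h1 : 1 / ((J' : ℝ) + 1) ≤ 1 / ((J : ℝ) + 1) := by
    apply one_div_le_one_div_of_le (by positivity)
    have : (J : ℝ) ≤ J' := by exact_mod_cast hJ
    linarith
  have := clamp_diff h0 h1 hxy
  linarith

/-- Alternating sums of a nonnegative nondecreasing sequence. -/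
lemma alt_bound (a : ℕ → ℝ) (h0 : ∀ i, 0 ≤ a i) (hm : Monotone a) (i₀ n : ℕ) (hn : i₀ ≤ n) :
    0 ≤ (-1 : ℝ) ^ n * ∑ i ∈ Finset.Ico i₀ (n + 1), (-1 : ℝ) ^ i * a i ∧
      (-1 : ℝ) ^ n * ∑ i ∈ Finset.Ico i₀ (n + 1), (-1 : ℝ) ^ i * a i ≤ a n := by
  induction n, hn using Nat.le_induction with
  | base =>
    have hsq : (-1 : ℝ) ^ i₀ * (-1 : ℝ) ^ i₀ = 1 := by
      rw [← mul_pow]; norm_num
    rw [Nat.Ico_succ_singleton, Finset.sum_singleton, ← mul_assoc, hsq, one_mul]
    exact ⟨h0 _, le_rfl⟩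
  | succ n hn ih =>
    have hsq : (-1 : ℝ) ^ (n + 1) * (-1 : ℝ) ^ (n + 1) = 1 := by
      rw [← mul_pow]; norm_num
    rw [Finset.sum_Ico_succ_top (by omega), mul_add, ← mul_assoc ((-1 : ℝ) ^ (n + 1)), hsq, one_mul,
      pow_succ]
    have h1 := hm (Nat.le_succ n)
    have h2 : (-1 : ℝ) ^ n * -1 * ∑ i ∈ Finset.Ico i₀ (n + 1), (-1 : ℝ) ^ i * a i =
        -((-1 : ℝ) ^ n * ∑ i ∈ Finset.Ico i₀ (n + 1), (-1 : ℝ) ^ i * a i) := by ring
    rw [h2]
    constructor <;> simp only [Nat.succ_eq_add_one] at h1 <;> linarith [ih.1, ih.2]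

lemma alt_abs (a : ℕ → ℝ) (h0 : ∀ i, 0 ≤ a i) (hm : Monotone a) (i₀ n : ℕ) :
    |∑ i ∈ Finset.Ico i₀ (n + 1), (-1 : ℝ) ^ i * a i| ≤ a n := by
  by_cases hn : i₀ ≤ n
  · obtain ⟨h1, h2⟩ := alt_bound a h0 hm i₀ n hn
    have h3 : |∑ i ∈ Finset.Ico i₀ (n + 1), (-1 : ℝ) ^ i * a i| =
        |(-1 : ℝ) ^ n * ∑ i ∈ Finset.Ico i₀ (n + 1), (-1 : ℝ) ^ i * a i| := by
      rw [abs_mul, abs_pow, abs_neg, abs_one, one_pow, one_mul]
    rw [h3, abs_of_nonneg h1]
    exact h2
  · rw [Finset.Ico_eq_empty (by omega)]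
    simpa using h0 n

end H72AS

open H72AS

theorem stmt_AS : Stmt_AS := by
  intro J hJ i₀ i₁ x y
  rw [← Finset.sum_sub_distrib]
  have key : ∀ x y : ℝ, y ≤ x →
      |∑ i ∈ Finset.Ico i₀ (i₁ + 1), ((-1 : ℝ) ^ i * soft (J i) x - (-1 : ℝ) ^ i * soft (J i) y)|
        ≤ |soft (J i₁) x - soft (J i₁) y| := by
    intro x y hxy
    have h1 := alt_abs (fun i => soft (J i) x - soft (J i) y) (fun i => soft_nonneg hxy)
      (fun i j hij => soft_mono (hJ.monotone hij) hxy) i₀ i₁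
    rw [abs_of_nonneg (soft_nonneg hxy)]
    refine le_trans (le_of_eq ?_) h1
    congr 1
    apply Finset.sum_congr rfl
    intro i _
    ring
  rcases le_total y x with h | h
  · exact key x y h
  · have h1 := key y x h
    rw [abs_sub_comm (soft (J i₁) x)]
    refine le_trans (le_of_eq ?_) h1
    rw [← abs_neg, ← Finset.sum_neg_distrib]
    congr 1
    apply Finset.sum_congr rfl
    intro i _
    ring

end Pool.Agent.MP156639
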